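import Pool.Agent.S13450

/-!
# Čech-completeness of metrizable spaces is not preserved by u-equivalence

`P = ℕ → ℕ` is the Baire space (the space of the irrational numbers). There is a countable
metrizable space `Q` without isolated points such that `C_p(P)` and `C_p(Q ⊕ P)` are uniformly
homeomorphic. `P` is a `G_δ` set in each of its compactifications, `Q ⊕ P` in none.
-/

open Topology TopologicalSpace

namespace Pool.Agent.Results.MP_7e4554_gt.CechNotPreserved

universe u

section Defs

variable (X Y : Type) [TopologicalSpace X] [TopologicalSpace Y]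

variable {X Y} in
/-- A map `φ : C_p(X) → C_p(Y)` is uniformly continuous for the uniformities of pointwise
convergence: for each finite set `F` of points of `Y` and `ε > 0` there are a finite set `G` of
points of `X` and `δ > 0` such that `|f - g| < δ` on `G` implies `|φ f - φ g| < ε` on `F`. -/
def UnifCont (φ : C(X, ℝ) → C(Y, ℝ)) : Prop :=
  ∀ (F : Finset Y) (ε : ℝ), 0 < ε → ∃ (G : Finset X) (δ : ℝ), 0 < δ ∧
    ∀ f g : C(X, ℝ), (∀ x ∈ G, |f x - g x| < δ) → ∀ y ∈ F, |φ f y - φ g y| < ε

/-- `X` and `Y` are `u`-equivalent: there is a uniform homeomorphism of `C_p(X)` onto `C_p(Y)`. -/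
def UEquivalent : Prop :=
  ∃ φ : C(X, ℝ) ≃ C(Y, ℝ), UnifCont φ ∧ UnifCont φ.symm

/-- `X` is a `G_δ` subset of its Stone-Čech compactification. -/
def CechComplete : Prop :=
  IsGδ (Set.range (stoneCechUnit : X → StoneCech X))

/-- `X` is a `G_δ` subset of each of its compactifications. -/
def GdeltaInEvery : Prop :=
  ∀ (K : Type u) [TopologicalSpace K] [CompactSpace K] [T2Space K] (e : X → K),
    IsEmbedding e → DenseRange e → IsGδ (Set.range e)

/-- `X` is a `G_δ` subset of one of its compactifications. -/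
def GdeltaInSome : Prop :=
  ∃ (K : Type u) (_ : TopologicalSpace K) (_ : CompactSpace K) (_ : T2Space K) (e : X → K),
    IsEmbedding e ∧ DenseRange e ∧ IsGδ (Set.range e)

end Defs

/-! ## `u`-equivalence -/

section UEq

variable {X Y Z : Type} [TopologicalSpace X] [TopologicalSpace Y] [TopologicalSpace Z]

theorem UEquivalent.trans (h : UEquivalent X Y) (h' : UEquivalent Y Z) : UEquivalent X Z := by
  obtain ⟨φ, h1, h2⟩ := h
  obtain ⟨ψ, h3, h4⟩ := h'
  refine ⟨φ.trans ψ, ?_, ?_⟩
  · intro F ε hε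
    obtain ⟨G, δ, hδ, hG⟩ := h3 F ε hε
    obtain ⟨H, η, hη, hH⟩ := h1 G δ hδ
    exact ⟨H, η, hη, fun f g hfg => hG _ _ (hH f g hfg)⟩
  · intro F ε hε
    obtain ⟨G, δ, hδ, hG⟩ := h2 F ε hε
    obtain ⟨H, η, hη, hH⟩ := h4 G δ hδ
    exact ⟨H, η, hη, fun f g hfg => hG _ _ (hH f g hfg)⟩

open Classical in
theorem unifCont_comp (h : C(Y, X)) : UnifCont (fun f : C(X, ℝ) => f.comp h) := by
  intro F ε hε
  refine ⟨F.image h, ε, hε, fun f g hfg y hy => ?_⟩
  exact hfg (h y) (Finset.mem_image_of_mem _ hy)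

theorem UEquivalent.of_homeomorph (h : X ≃ₜ Y) : UEquivalent X Y := by
  refine ⟨⟨fun f => f.comp ⟨h.symm, h.symm.continuous⟩, fun f => f.comp ⟨h, h.continuous⟩,
    fun f => ?_, fun f => ?_⟩, unifCont_comp _, unifCont_comp _⟩
  · ext x
    simp
  · ext x
    simp

omit [TopologicalSpace X] in
theorem exists_of_mem_uniformity {s : Set ((X → ℝ) × (X → ℝ))} (hs : s ∈ uniformity (X → ℝ)) :
    ∃ (G : Finset X) (δ : ℝ), 0 < δ ∧
      ∀ f g : X → ℝ, (∀ x ∈ G, |f x - g x| < δ) → (f, g) ∈ s := by
  rw [Pi.uniformity] at hs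
  have hb : ∀ x : X, (Filter.comap (fun a : (X → ℝ) × (X → ℝ) => (a.1 x, a.2 x))
      (uniformity ℝ)).HasBasis (fun ε : ℝ => 0 < ε)
      (fun ε => {a | |a.1 x - a.2 x| < ε}) := fun x =>
    (Metric.uniformity_basis_dist.comap _)
  obtain ⟨⟨I, r⟩, ⟨hI, hr⟩, hs'⟩ := (Filter.HasBasis.iInf' hb).mem_iff.1 hs
  obtain ⟨δ, hδ, hδ'⟩ : ∃ δ : ℝ, 0 < δ ∧ ∀ x ∈ hI.toFinset, δ ≤ r x := by
    have hr' : ∀ x ∈ hI.toFinset, 0 < r x := fun x hx => hr x (hI.mem_toFinset.1 hx)
    generalize hI.toFinset = J at hr'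
    classical
    induction J using Finset.induction_on with
    | empty => exact ⟨1, one_pos, by simp⟩
    | insert a J _ ih =>
      obtain ⟨δ, hδ, h⟩ := ih (fun x hx => hr' x (Finset.mem_insert_of_mem hx))
      refine ⟨min δ (r a), lt_min hδ (hr' a (Finset.mem_insert_self _ _)), fun x hx => ?_⟩
      rcases Finset.mem_insert.1 hx with rfl | hx
      · exact min_le_right _ _
      · exact (min_le_left _ _).trans (h x hx)
  refine ⟨hI.toFinset, δ, hδ, fun f g hfg => hs' ?_⟩
  refine Set.mem_iInter₂.2 fun x hx => ?_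
  have hx' : x ∈ hI.toFinset := hI.mem_toFinset.2 hx
  exact (hfg x hx').trans_le (hδ' x hx')

theorem unifCont_of {E : {f : X → ℝ // Continuous f} → {g : Y → ℝ // Continuous g}}
    (hE : UniformContinuous E) :
    UnifCont (fun f : C(X, ℝ) => (⟨(E ⟨f, f.continuous⟩).1, (E ⟨f, f.continuous⟩).2⟩ : C(Y, ℝ))) := by
  intro F ε hε
  have h1 : ∀ y : Y, ∃ (G : Finset X) (δ : ℝ), 0 < δ ∧
      ∀ f g : {f : X → ℝ // Continuous f}, (∀ x ∈ G, |f.1 x - g.1 x| < δ) →
        |(E f).1 y - (E g).1 y| < ε := by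
    intro y
    have h2 : UniformContinuous (fun f : {f : X → ℝ // Continuous f} => (E f).1 y) :=
      (Pi.uniformContinuous_proj (fun _ : Y => ℝ) y).comp
        (uniformContinuous_subtype_val.comp hE)
    have h3 : {a : {f : X → ℝ // Continuous f} × {f : X → ℝ // Continuous f} |
        |(E a.1).1 y - (E a.2).1 y| < ε} ∈ uniformity {f : X → ℝ // Continuous f} :=
      h2 (Metric.dist_mem_uniformity hε)
    rw [uniformity_subtype, Filter.mem_comap] at h3
    obtain ⟨s, hs, hs'⟩ := h3
    obtain ⟨G, δ, hδ, hG⟩ := exists_of_mem_uniformity hs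
    refine ⟨G, δ, hδ, fun f g hfg => ?_⟩
    have h4 : (f, g) ∈ (fun q : {f : X → ℝ // Continuous f} × {f : X → ℝ // Continuous f} =>
        (q.1.1, q.2.1)) ⁻¹' s := hG f.1 g.1 hfg
    exact hs' h4
  choose G δ hδ hG using h1
  classical
  induction F using Finset.induction_on with
  | empty => exact ⟨∅, 1, one_pos, fun f g _ y hy => absurd hy (Finset.notMem_empty y)⟩
  | insert a F _ ih =>
    obtain ⟨H, η, hη, hH⟩ := ih
    refine ⟨G a ∪ H, min (δ a) η, lt_min (hδ a) hη, fun f g hfg y hy => ?_⟩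
    rcases Finset.mem_insert.1 hy with rfl | hy
    · exact hG y ⟨f, f.continuous⟩ ⟨g, g.continuous⟩ fun x hx =>
        (hfg x (Finset.mem_union_left _ hx)).trans_le (min_le_left _ _)
    · exact hH f g (fun x hx =>
        (hfg x (Finset.mem_union_right _ hx)).trans_le (min_le_right _ _)) y hy

theorem UEquivalent.of_uniformEquiv
    (E : UniformEquiv {f : X → ℝ // Continuous f} {g : Y → ℝ // Continuous g}) :
    UEquivalent X Y := by
  refine ⟨⟨fun f => ⟨(E ⟨f, f.continuous⟩).1, (E ⟨f, f.continuous⟩).2⟩,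
    fun f => ⟨(E.symm ⟨f, f.continuous⟩).1, (E.symm ⟨f, f.continuous⟩).2⟩,
    fun f => ?_, fun f => ?_⟩, unifCont_of E.uniformContinuous,
    unifCont_of E.symm.uniformContinuous⟩
  · ext x
    exact congrFun (congrArg Subtype.val (E.symm_apply_apply ⟨f, f.continuous⟩)) x
  · ext x
    exact congrFun (congrArg Subtype.val (E.apply_symm_apply ⟨f, f.continuous⟩)) x

end UEq

/-! ## `G_δ` sets in compactifications -/

section Gdelta

/-- A completely metrizable space is a `G_δ` set in each Hausdorff space in which it is dense. -/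
theorem isGδ_range_of_complete {X : Type} {K : Type u} [TopologicalSpace X]
    [IsCompletelyMetrizableSpace X] [TopologicalSpace K] [T2Space K] (e : X → K)
    (he : IsEmbedding e) (hd : DenseRange e) : IsGδ (Set.range e) := by
  let : MetricSpace X := completelyMetrizableMetric X
  have : CompleteSpace X := complete_completelyMetrizableMetric X
  set U : ℕ → Set K := fun n => ⋃₀ {V | IsOpen V ∧ ∀ a b, e a ∈ V → e b ∈ V →
    dist a b < 1 / ((n : ℝ) + 1)} with hU
  have h1 : Set.range e = ⋂ n, U n := by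
    apply Set.Subset.antisymm
    · rintro _ ⟨x, rfl⟩
      refine Set.mem_iInter.2 fun n => ?_
      have hn : (0 : ℝ) < 1 / ((n : ℝ) + 1) := by positivity
      obtain ⟨V, hV, hV'⟩ := he.isInducing.isOpen_iff.1
        (Metric.isOpen_ball (x := x) (ε := (1 / ((n : ℝ) + 1)) / 2))
      refine Set.mem_sUnion.2 ⟨V, ⟨hV, fun a b ha hb => ?_⟩, ?_⟩
      · have ha' : a ∈ e ⁻¹' V := ha
        have hb' : b ∈ e ⁻¹' V := hb
        rw [hV'] at ha' hb'
        have := dist_triangle_right a b x
        rw [Metric.mem_ball] at ha' hb'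
        linarith
      · have : x ∈ e ⁻¹' V := by
          rw [hV']
          exact Metric.mem_ball_self (by positivity)
        exact this
    · intro y hy
      rw [Set.mem_iInter] at hy
      have hne : (Filter.comap e (nhds y)).NeBot := (IsDenseInducing.mk he.isInducing hd).comap_nhds_neBot y
      have hc : Cauchy (Filter.comap e (nhds y)) := by
        rw [Metric.cauchy_iff]
        refine ⟨hne, fun ε hε => ?_⟩
        obtain ⟨n, hn⟩ := exists_nat_one_div_lt hε
        obtain ⟨V, ⟨hV, hV'⟩, hyV⟩ := Set.mem_sUnion.1 (hy n)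
        exact ⟨e ⁻¹' V, Filter.preimage_mem_comap (hV.mem_nhds hyV),
          fun a ha b hb => (hV' a b ha hb).trans hn⟩
      obtain ⟨x, hx⟩ := CompleteSpace.complete hc
      refine ⟨x, ?_⟩
      have h2 : Filter.Tendsto e (Filter.comap e (nhds y)) (nhds (e x)) :=
        he.continuous.continuousAt.mono_left hx
      exact tendsto_nhds_unique h2 Filter.tendsto_comap
  rw [h1]
  refine IsGδ.iInter_of_isOpen fun n => isOpen_sUnion fun V hV => hV.1

/-- A disjoint sum with a nonempty countable space without isolated points is no `G_δ` set in any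
compact Hausdorff space. -/
theorem not_isGδ_range {Q P : Type} {K : Type u} [TopologicalSpace Q] [TopologicalSpace P]
    [Countable Q] [Nonempty Q] (hQ : ∀ q : Q, ¬ IsOpen ({q} : Set Q))
    [TopologicalSpace K] [CompactSpace K] [T2Space K] (e : Q ⊕ P → K) (he : IsEmbedding e) :
    ¬ IsGδ (Set.range e) := by
  intro hG
  set C : Set K := closure (Set.range (e ∘ Sum.inl)) with hC
  have : CompactSpace C := isCompact_iff_compactSpace.1 isClosed_closure.isCompact
  have hmem : ∀ q : Q, e (Sum.inl q) ∈ C := fun q => subset_closure ⟨q, rfl⟩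
  set j : Q → C := fun q => ⟨e (Sum.inl q), hmem q⟩ with hj
  have hjc : Continuous j := (he.continuous.comp continuous_inl).subtype_mk _
  have hji : Function.Injective j := by
    intro a b hab
    have : e (Sum.inl a) = e (Sum.inl b) := congrArg Subtype.val hab
    exact Sum.inl_injective (he.injective this)
  have hr : Set.range j = Subtype.val ⁻¹' (Set.range e) := by
    apply Set.Subset.antisymm
    · rintro _ ⟨q, rfl⟩
      exact ⟨Sum.inl q, rfl⟩
    · rintro ⟨c, hc⟩ ⟨y, hy⟩
      have hy' : y ∈ closure (Set.range (Sum.inl : Q → Q ⊕ P)) := by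
        rw [he.isInducing.closure_eq_preimage_closure_image, Set.mem_preimage,
          ← Set.range_comp]
        have : e y = c := hy
        rw [this]
        exact hc
      rw [isClosed_range_inl.closure_eq] at hy'
      obtain ⟨q, rfl⟩ := hy'
      exact ⟨q, Subtype.ext hy⟩
  have hjG : IsGδ (Set.range j) := by
    rw [hr]
    exact hG.preimage continuous_subtype_val
  have hjd : Dense (Set.range j) := by
    intro c
    rw [closure_subtype]
    have : Subtype.val '' Set.range j = Set.range (e ∘ Sum.inl) := by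
      rw [← Set.range_comp]
      rfl
    rw [this]
    exact c.2
  have hT : IsGδ (⋂ q : Q, ({j q}ᶜ : Set C)) :=
    IsGδ.iInter_of_isOpen fun q => isOpen_compl_singleton
  have hTd : Dense (⋂ q : Q, ({j q}ᶜ : Set C)) := by
    refine dense_iInter_of_isOpen (fun q => isOpen_compl_singleton) fun q => ?_
    rw [dense_compl_singleton_iff_not_open]
    intro ho
    apply hQ q
    have h2 : j ⁻¹' {j q} = {q} := by
      ext a
      exact ⟨fun h => hji h, fun h => congrArg j h⟩
    rw [← h2]
    exact ho.preimage hjc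
  have hd := hjd.inter_of_Gδ hjG hT hTd
  have : Nonempty C := ⟨j (Classical.arbitrary Q)⟩
  obtain ⟨c, ⟨q, hq⟩, hc⟩ := hd.nonempty
  exact Set.mem_iInter.1 hc q hq.symm

end Gdelta

/-- The spaces `ℕ × (ℕ → ℕ)` and `ℕ → ℕ` are homeomorphic. -/
def consHomeo : ℕ × (ℕ → ℕ) ≃ₜ (ℕ → ℕ) where
  toFun p n := Nat.casesOn n p.1 p.2
  invFun x := (x 0, fun n => x (n + 1))
  left_inv p := rfl
  right_inv x := by
    funext n
    cases n <;> rfl
  continuous_toFun := by
    refine continuous_pi fun n => ?_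
    cases n with
    | zero => exact continuous_fst
    | succ n => exact (continuous_apply n).comp continuous_snd
  continuous_invFun := by
    refine (continuous_apply 0).prodMk (continuous_pi fun n => continuous_apply (n + 1))

open Pool.Agent.S13450 in
/-- **Čech-completeness of metrizable spaces is not preserved by `u`-equivalence.** -/
theorem result :
    ∃ (Q : Type) (_ : TopologicalSpace Q),
      Countable Q ∧ MetrizableSpace Q ∧ (∀ q : Q, ¬ IsOpen ({q} : Set Q)) ∧
      MetrizableSpace (ℕ → ℕ) ∧ MetrizableSpace (Q ⊕ (ℕ → ℕ)) ∧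
      UEquivalent (ℕ → ℕ) (Q ⊕ (ℕ → ℕ)) ∧
      CechComplete (ℕ → ℕ) ∧ GdeltaInEvery.{u} (ℕ → ℕ) ∧
        IsCompletelyMetrizableSpace (ℕ → ℕ) ∧
      ¬ CechComplete (Q ⊕ (ℕ → ℕ)) ∧ ¬ GdeltaInSome.{u} (Q ⊕ (ℕ → ℕ)) ∧
        ¬ IsCompletelyMetrizableSpace (Q ⊕ (ℕ → ℕ)) := by
  have hcount : Countable QQ := by
    have : Function.Injective QQ.l := by
      intro a b hab
      cases a; cases b
      simpa using hab
    exact this.countable
  have : Nonempty QQ := ⟨⟨[]⟩⟩
  have hiso : ∀ q : QQ, ¬ IsOpen ({q} : Set QQ) := by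
    rintro ⟨σ⟩ hopen
    obtain ⟨N, hN⟩ := exists_mem_nhds_QQ (σ := σ) hopen rfl
    have h7 : (⟨σ ++ N :: []⟩ : QQ) = ⟨σ⟩ := hN N le_rfl []
    have h8 := congrArg (fun s : QQ => s.l.length) h7
    simp at h8
  have hm : MetrizableSpace (QQ ⊕ (ℕ → ℕ)) := metrizable_sum QQ (ℕ → ℕ)
  refine ⟨QQ, inferInstance, hcount, inferInstance, hiso, inferInstance, hm, ?_, ?_, ?_,
    inferInstance, ?_, ?_, ?_⟩
  · exact (UEquivalent.of_homeomorph consHomeo.symm).trans
      ((UEquivalent.of_uniformEquiv mainEquiv).trans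
        (UEquivalent.of_homeomorph ((Homeomorph.refl QQ).sumCongr consHomeo)))
  · exact isGδ_range_of_complete _ isEmbedding_stoneCechUnit denseRange_stoneCechUnit
  · intro K _ _ _ e he hd
    exact isGδ_range_of_complete e he hd
  · exact not_isGδ_range hiso _ isEmbedding_stoneCechUnit
  · rintro ⟨K, _, _, _, e, he, _, hG⟩
    exact not_isGδ_range hiso e he hG
  · intro h
    exact QQ_not_complete
      (Topology.IsClosedEmbedding.inl.IsCompletelyMetrizableSpace (Y := QQ ⊕ (ℕ → ℕ)))

end Pool.Agent.Results.MP_7e4554_gt.CechNotPreserved
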